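import Pool.Agent.Q302.NK.Top

/-!
# MP_07734d_lc, Q1: yes

The filter dual to the ideal `Z ⊗ Fin` is Borel, not `F_σδ`, and its algebra has the Nikodym
property.
-/

namespace Pool.Agent.Results.MP_07734d_lc.ZTensorFin

open Pool.Agent.Q302.NK

/-- Full positive answer to Q1 of MP_07734d_lc. -/
theorem result : ∃ F : Filter ℕ, F ≤ Filter.cofinite ∧ F.NeBot ∧
    MeasurableSet (inCantor F.sets) ∧ ¬ IsFsigmadelta (inCantor F.sets) ∧ Nikodym (alg F) :=
  ⟨FJ, FJ_le, FJ_neBot, measurable_FJ, not_fsigmadelta, nikodym_FJ⟩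

end Pool.Agent.Results.MP_07734d_lc.ZTensorFin
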